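import Pool.Agent.H2.GreedyDefs

namespace Pool.Agent.Results.MP_8ea6c6_co.NotGreedy

open Pool.Agent.H2.Greedy

lemma m1 (k : ℕ) : k ∈ AddSubmonoid.closure (({2, 7} : Finset ℕ) : Set ℕ) ↔
    k % 2 = 0 ∨ 7 ≤ k := by
  rw [Finset.coe_pair, AddSubmonoid.mem_closure_pair]
  simp only [smul_eq_mul]
  exact ⟨fun ⟨a, b, h⟩ => by omega, fun h => ⟨(k - k % 2 * 7) / 2, k % 2, by omega⟩⟩

lemma m2 (k : ℕ) : k ∈ AddSubmonoid.closure ((insert 5 {2, 7} : Finset ℕ) : Set ℕ) ↔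
    k ≠ 1 ∧ k ≠ 3 := by
  constructor
  · intro h
    induction h using AddSubmonoid.closure_induction with
    | mem x hx => simp at hx; omega
    | zero => simp
    | add x y _ _ h1 h2 => omega
  · intro h
    have h2 := nsmul_mem (AddSubmonoid.subset_closure
      (show 2 ∈ ((insert 5 {2, 7} : Finset ℕ) : Set ℕ) by simp)) ((k - k % 2 * 5) / 2)
    have h5 := nsmul_mem (AddSubmonoid.subset_closure
      (show 5 ∈ ((insert 5 {2, 7} : Finset ℕ) : Set ℕ) by simp)) (k % 2)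
    convert add_mem h2 h5 using 1
    simp only [smul_eq_mul]
    omega

lemma sup {s : Set ℕ} {a : ℕ} (h1 : a ∈ s) (h2 : ∀ b ∈ s, b ≤ a) : sSup s = a :=
  IsGreatest.csSup_eq ⟨h1, h2⟩

theorem result : ∃ (S : Finset ℕ) (F : ℕ), (∀ s ∈ S, 0 < s) ∧ S.gcd id = 1 ∧ 1 ∉ S ∧
    FrobeniusNumber F S ∧ IsGreedy S ∧ ¬ IsGreedy (insert F S) := by
  refine ⟨{2, 7}, 5, by simp, by decide, by simp, ⟨by simp only [Set.mem_ofPred_eq, m1]; omega,
    fun k hk => by simp only [Set.mem_ofPred_eq, m1] at hk; omega⟩, fun k hk => ?_, fun h => ?_⟩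
  · have e : ({2, 7} : Finset ℕ).sort (· ≥ ·) = [7, 2] :=
      List.Perm.eq_of_pairwise' (r := (· ≥ ·)) (Finset.pairwise_sort _ _) (by simp)
        (Multiset.coe_eq_coe.1 (by rw [Finset.sort_eq]; decide))
    rw [m1] at hk
    have s1 : sSup {q | q * 7 ≤ k ∧ (k - q * 7) % 2 = 0 ∨ q * 7 ≤ k ∧ 7 ≤ k - q * 7} =
        k / 7 - k % 7 % 2 := sup (by simp only [Set.mem_ofPred_eq]; omega)
      fun b hb => by simp only [Set.mem_ofPred_eq] at hb; omega
    have s2 : ∀ r, r % 2 = 0 →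
        sSup {q | q * 2 ≤ r ∧ (r - q * 2) % 2 = 0 ∨ q * 2 ≤ r ∧ 7 ≤ r - q * 2} = r / 2 :=
      fun r hr => sup (by simp only [Set.mem_ofPred_eq]; omega)
        fun b hb => by simp only [Set.mem_ofPred_eq] at hb; omega
    simp only [greedyCost, e, run, m1, and_or_left, s1]
    rw [s2 _ (by omega)]
    unfold minCost
    symm
    refine (IsLeast.csInf_eq ⟨⟨fun s => if s = 2 then (k - (k / 7 - k % 7 % 2) * 7) / 2
      else k / 7 - k % 7 % 2, ?_⟩, ?_⟩)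
    · simp; omega
    · rintro c ⟨a, h1, h2⟩
      simp at h1 h2
      omega
  · have e : (insert 5 {2, 7} : Finset ℕ).sort (· ≥ ·) = [7, 5, 2] :=
      List.Perm.eq_of_pairwise' (r := (· ≥ ·)) (Finset.pairwise_sort _ _) (by simp)
        (Multiset.coe_eq_coe.1 (by rw [Finset.sort_eq]; decide))
    have s1 : sSup {q | q * 7 ≤ 15 ∧ 15 - q * 7 ≠ 1 ∧ 15 - q * 7 ≠ 3} = 1 :=
      sup (by simp) fun b hb => by simp only [Set.mem_ofPred_eq] at hb; omega
    have s2 : sSup {q | q * 5 ≤ 8 ∧ 8 - q * 5 ≠ 1 ∧ 8 - q * 5 ≠ 3} = 0 :=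
      sup (by simp) fun b hb => by simp only [Set.mem_ofPred_eq] at hb; omega
    have s3 : sSup {q | q * 2 ≤ 8 ∧ 8 - q * 2 ≠ 1 ∧ 8 - q * 2 ≠ 3} = 4 :=
      sup (by simp) fun b hb => by simp only [Set.mem_ofPred_eq] at hb; omega
    have h1 := h 15 ((m2 _).2 (by omega))
    have h2 : minCost (insert 5 {2, 7}) 15 ≤ 3 :=
      Nat.sInf_le ⟨fun s => if s = 5 then 3 else 0, by simp⟩
    simp only [greedyCost, e, run, m2, s1, Nat.reduceMul, Nat.reduceSub, s2, s3] at h1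
    omega

end Pool.Agent.Results.MP_8ea6c6_co.NotGreedy
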